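import Pool.Agent.H61.Shatter.Energy

set_option autoImplicit false
set_option linter.unusedSectionVars false

open Finset

namespace Pool.Agent.H61.Shatter

variable {α β : Type*} [Fintype α] [DecidableEq α] [Fintype β] [DecidableEq β]

/-- replace every point of the pattern `g` by a copy of the configuration `f` -/
def blow (g : Fin 6 → β → ℕ) (f : Fin 6 → α → ℕ) (M : ℕ) : Fin 6 → β × α → ℕ :=
  fun i p => g i p.1 * M + f i p.2

theorem blow_lt {g : Fin 6 → β → ℕ} {f : Fin 6 → α → ℕ} {M : ℕ} (hM : ∀ i a, f i a < M)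
    {i : Fin 6} {p q : β × α} (h : g i p.1 < g i q.1) : blow g f M i p < blow g f M i q := by
  unfold blow
  have h1 := hM i p.2
  have h2 : (g i p.1 + 1) * M ≤ g i q.1 * M := Nat.mul_le_mul_right _ h
  rw [Nat.add_mul, one_mul] at h2
  omega

theorem blow_lt' {g : Fin 6 → β → ℕ} {f : Fin 6 → α → ℕ} {M : ℕ}
    {i : Fin 6} {p q : β × α} (h1 : p.1 = q.1) (h : f i p.2 < f i q.2) :
    blow g f M i p < blow g f M i q := by
  unfold blow
  rw [h1]
  omega

theorem blow_inj {g : Fin 6 → β → ℕ} {f : Fin 6 → α → ℕ} {M : ℕ} (hM : ∀ i a, f i a < M)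
    (hg : ∀ i, Function.Injective (g i)) (hf : ∀ i, Function.Injective (f i)) (i : Fin 6) :
    Function.Injective (blow g f M i) := by
  intro p q h
  have h1 : p.1 = q.1 := by
    apply hg i
    rcases lt_trichotomy (g i p.1) (g i q.1) with h2 | h2 | h2
    · exact absurd h (blow_lt hM h2).ne
    · exact h2
    · exact absurd h (blow_lt hM h2).ne'
  have h2 : p.2 = q.2 := by
    apply hf i
    unfold blow at h
    rw [h1] at h
    omega
  exact Prod.ext h1 h2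

theorem sh_blow {g : Fin 6 → β → ℕ} {f : Fin 6 → α → ℕ} {M : ℕ} (hM : ∀ i a, f i a < M)
    {p q r : β × α} (h : Sh g p.1 q.1 r.1) : Sh (blow g f M) p q r := by
  obtain ⟨⟨i0, h0, h0'⟩, ⟨i1, h1, h1'⟩, ⟨i2, h2, h2'⟩, ⟨i3, h3, h3'⟩, ⟨i4, h4, h4'⟩,
      ⟨i5, h5, h5'⟩⟩ := h
  exact ⟨⟨i0, blow_lt hM h0, blow_lt hM h0'⟩, ⟨i1, blow_lt hM h1, blow_lt hM h1'⟩,
    ⟨i2, blow_lt hM h2, blow_lt hM h2'⟩, ⟨i3, blow_lt hM h3, blow_lt hM h3'⟩,
    ⟨i4, blow_lt hM h4, blow_lt hM h4'⟩, ⟨i5, blow_lt hM h5, blow_lt hM h5'⟩⟩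

theorem sh_blow' {g : Fin 6 → β → ℕ} {f : Fin 6 → α → ℕ} {M : ℕ}
    {p q r : β × α} (e1 : p.1 = q.1) (e2 : q.1 = r.1) (h : Sh f p.2 q.2 r.2) :
    Sh (blow g f M) p q r := by
  obtain ⟨⟨i0, h0, h0'⟩, ⟨i1, h1, h1'⟩, ⟨i2, h2, h2'⟩, ⟨i3, h3, h3'⟩, ⟨i4, h4, h4'⟩,
      ⟨i5, h5, h5'⟩⟩ := h
  have e3 := e1.trans e2
  exact ⟨⟨i0, blow_lt' e1 h0, blow_lt' e2 h0'⟩, ⟨i1, blow_lt' e3 h1, blow_lt' e2.symm h1'⟩,
    ⟨i2, blow_lt' e1.symm h2, blow_lt' e3 h2'⟩, ⟨i3, blow_lt' e2 h3, blow_lt' e3.symm h3'⟩,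
    ⟨i4, blow_lt' e3.symm h4, blow_lt' e1 h4'⟩, ⟨i5, blow_lt' e2.symm h5, blow_lt' e1.symm h5'⟩⟩

theorem sum_fst (F : β → β → β → ℕ) : ∑ p : β × α, ∑ q : β × α, ∑ r : β × α, F p.1 q.1 r.1 =
    (∑ x, ∑ y, ∑ z, F x y z) * Fintype.card α ^ 3 := by
  simp only [Fintype.sum_prod_type, Finset.sum_const, Finset.card_univ, smul_eq_mul,
    ← Finset.mul_sum]
  ring

theorem num_blow {g : Fin 6 → β → ℕ} {f : Fin 6 → α → ℕ} {M : ℕ} (hM : ∀ i a, f i a < M) :
    num g * Fintype.card α ^ 3 + Fintype.card β * num f ≤ num (blow g f M) := by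
  have key : ∀ p q r : β × α,
      (if Sh g p.1 q.1 r.1 then 1 else 0) +
        (if p.1 = q.1 ∧ q.1 = r.1 then (if Sh f p.2 q.2 r.2 then 1 else 0) else 0) ≤
      (if Sh (blow g f M) p q r then 1 else 0 : ℕ) := by
    intro p q r
    by_cases h : Sh g p.1 q.1 r.1
    · have h1 := sh_blow (f := f) (M := M) hM h
      have h2 : ¬ (p.1 = q.1 ∧ q.1 = r.1) := fun e => h.ne.1 e.1
      simp [h, h1, h2]
    · by_cases h2 : p.1 = q.1 ∧ q.1 = r.1
      · by_cases h3 : Sh f p.2 q.2 r.2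
        · have h4 := sh_blow' (g := g) (M := M) h2.1 h2.2 h3
          rw [if_neg h, if_pos h2, if_pos h3, if_pos h4]
        · simp [h, h3]
      · simp [h, h2]
  have h1 := Finset.sum_le_sum fun p (_ : p ∈ (Finset.univ : Finset (β × α))) =>
    Finset.sum_le_sum fun q (_ : q ∈ (Finset.univ : Finset (β × α))) =>
      Finset.sum_le_sum fun r (_ : r ∈ (Finset.univ : Finset (β × α))) => key p q r
  have h2 : ∑ p : β × α, ∑ q : β × α, ∑ r : β × α, (if Sh g p.1 q.1 r.1 then 1 else 0 : ℕ) =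
      num g * Fintype.card α ^ 3 := sum_fst (fun x y z => if Sh g x y z then 1 else 0)
  have h3 : ∑ p : β × α, ∑ q : β × α, ∑ r : β × α,
      (if p.1 = q.1 ∧ q.1 = r.1 then (if Sh f p.2 q.2 r.2 then 1 else 0) else 0 : ℕ) =
      Fintype.card β * num f := by
    have : ∀ (x : β) (a : α), ∑ q : β × α, ∑ r : β × α,
      (if x = q.1 ∧ q.1 = r.1 then (if Sh f a q.2 r.2 then 1 else 0) else 0 : ℕ) =
      ∑ b : α, ∑ c : α, (if Sh f a b c then 1 else 0 : ℕ) := by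
      intro x a
      rw [Fintype.sum_prod_type, Finset.sum_eq_single x]
      · apply Finset.sum_congr rfl
        intro b _
        rw [Fintype.sum_prod_type, Finset.sum_eq_single x]
        · simp
        · intro z _ hz
          simp [Ne.symm hz]
        · simp
      · intro y _ hy
        simp [Ne.symm hy]
      · simp
    rw [Fintype.sum_prod_type]
    simp only [this]
    rw [Finset.sum_const, Finset.card_univ, smul_eq_mul]
    rfl
  simp only [Finset.sum_add_distrib] at h1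
  rw [h2, h3] at h1
  exact h1

end Pool.Agent.H61.Shatter
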