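import Mathlib

/-!
# Six linear orders and shattered triples: the energy identity

`pos i a` is the position of `a` in the `i`-th of six linear orders.  A triple is shattered if all
its six orderings occur.  Each ordered pair `a ≠ b` gets the label `lab pos a b : Fin 6 → Bool`
recording in which orders `a` comes first, and each label in which exactly three entries are true
gets a vector `d x : Fin 6 → {1, -1}` (the image under the outer automorphism of `S₆`).
-/

set_option autoImplicit false

open Finset

namespace Pool.Agent.H61.Shatter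

/-- the outer automorphism table: label code `c < 64` is sent to the `c`-th base-64 digit
(zero for labels which are not balanced) -/
def tabList : List ℕ :=
  [0, 0, 0, 0, 0, 0, 0, 7, 0, 0, 0, 25, 0, 50, 44, 0, 0, 0, 0, 42, 0, 28, 49, 0, 0, 37, 22, 0, 11,
   0, 0, 0, 0, 0, 0, 52, 0, 41, 26, 0, 0, 14, 35, 0, 21, 0, 0, 0, 0, 19, 13, 0, 38, 0, 0, 0, 56,
   0, 0, 0, 0, 0, 0, 0]

/-- the same table as one number -/
def tabNum : ℕ := tabList.foldr (fun x acc => x + 64 * acc) 0

/-- code of a label -/
def code (x : Fin 6 → Bool) : ℕ :=
  (x 0).toNat + 2 * (x 1).toNat + 4 * (x 2).toNat + 8 * (x 3).toNat + 16 * (x 4).toNat +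
    32 * (x 5).toNat

/-- the dual sign vector of a balanced label, from its code -/
def dc (c : ℕ) (j : Fin 6) : ℤ :=
  let t := (tabNum / 64 ^ c) % 64
  if t = 0 then 0 else if t.testBit j then 1 else -1

/-- the dual sign vector of a label (zero if the label is not balanced) -/
def d (x : Fin 6 → Bool) (j : Fin 6) : ℤ := dc (code x) j

theorem d_neg : ∀ (x : Fin 6 → Bool) (j : Fin 6), d (fun i => !x i) j = - d x j := by
  decide +kernel

theorem d_cases : ∀ (x : Fin 6 → Bool) (j : Fin 6), d x j = 0 ∨ d x j = 1 ∨ d x j = -1 := by
  decide +kernel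

theorem d_zero_or : ∀ (x : Fin 6 → Bool), (∀ j, d x j = 0) ∨ (∀ j, d x j = 1 ∨ d x j = -1) := by
  decide +kernel

theorem d_false : ∀ j, d (fun _ => false) j = 0 := by
  decide +kernel


/-- the label is balanced: exactly three entries are true -/
def bal (x : Fin 6 → Bool) : Bool :=
  (x 0).toNat + (x 1).toNat + (x 2).toNat + (x 3).toNat + (x 4).toNat + (x 5).toNat == 3

/-- `κ x y z` for the labels `x, y, z` of `(a, b), (b, c), (c, a)` -/
def kap (x y z : Fin 6 → Bool) : ℤ :=
  -∑ j, (d x j * d z j + d y j * d x j + d z j * d y j)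

theorem kap_le (x y z : Fin 6 → Bool) : kap x y z ≤ 6 := by
  have h : ∀ j ∈ (Finset.univ : Finset (Fin 6)),
      (-1 : ℤ) ≤ d x j * d z j + d y j * d x j + d z j * d y j := by
    intro j _
    rcases d_cases x j with hx | hx | hx <;> rcases d_cases y j with hy | hy | hy <;>
      rcases d_cases z j with hz | hz | hz <;> rw [hx, hy, hz] <;> norm_num
  have := Finset.sum_le_sum h
  simp only [Finset.sum_const, Finset.card_univ, Fintype.card_fin] at this
  unfold kap
  norm_num at this ⊢
  linarith

/-- `a` before `b` in the ordering number `o` of `a, b, c`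
(the orderings `abc, acb, bac, bca, cab, cba`) -/
def AB (o : Fin 6) : Bool := o == 0 || o == 1 || o == 4
/-- `b` before `c` -/
def BC (o : Fin 6) : Bool := o == 0 || o == 2 || o == 3
/-- `c` before `a` -/
def CA (o : Fin 6) : Bool := o == 3 || o == 4 || o == 5

theorem kap_perm : ∀ p : Equiv.Perm (Fin 6),
    kap (fun i => AB (p i)) (fun i => BC (p i)) (fun i => CA (p i)) = -6 := by
  decide +kernel

/-- no index where the three labels agree -/
def nonconst (x y z : Fin 6 → Bool) : Bool :=
  (List.finRange 6).all fun i => !(x i == y i && y i == z i)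

/-- all six orderings occur -/
def allsix (x y z : Fin 6 → Bool) : Bool :=
  ((List.finRange 6).any fun i => x i && y i && !z i) &&
  ((List.finRange 6).any fun i => x i && !y i && !z i) &&
  ((List.finRange 6).any fun i => !x i && y i && !z i) &&
  ((List.finRange 6).any fun i => !x i && y i && z i) &&
  ((List.finRange 6).any fun i => x i && !y i && z i) &&
  ((List.finRange 6).any fun i => !x i && !y i && z i)


theorem main_check : ∀ x : Fin 6 → Bool, bal x = true → ∀ y : Fin 6 → Bool, bal y = true →
    ∀ z : Fin 6 → Bool, bal z = true → nonconst x y z = true →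
    ((allsix x y z = true ∧ kap x y z = -6) ∨ (allsix x y z = false ∧ kap x y z = 6)) := by
  decide +kernel

end Pool.Agent.H61.Shatter
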