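import Pool.Agent.H61.Shatter.Core

set_option autoImplicit false

open Finset

set_option linter.unusedSectionVars false
set_option linter.unusedSimpArgs false

namespace Pool.Agent.H61.Shatter

variable {α : Type*} (pos : Fin 6 → α → ℕ)

/-- label of an ordered pair: in which of the six orders does `a` come before `b`? -/
def lab (a b : α) : Fin 6 → Bool := fun i => decide (pos i a < pos i b)

/-- all six orderings of `a, b, c` occur among the six orders -/
def Sh (a b c : α) : Prop :=
  (∃ i, pos i a < pos i b ∧ pos i b < pos i c) ∧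
  (∃ i, pos i a < pos i c ∧ pos i c < pos i b) ∧
  (∃ i, pos i b < pos i a ∧ pos i a < pos i c) ∧
  (∃ i, pos i b < pos i c ∧ pos i c < pos i a) ∧
  (∃ i, pos i c < pos i a ∧ pos i a < pos i b) ∧
  (∃ i, pos i c < pos i b ∧ pos i b < pos i a)

instance (a b c : α) : Decidable (Sh pos a b c) := by unfold Sh; infer_instance

variable {pos}

theorem Sh.ne {a b c : α} (h : Sh pos a b c) : a ≠ b ∧ b ≠ c ∧ a ≠ c := by
  obtain ⟨⟨i, h1, h2⟩, -⟩ := h
  refine ⟨?_, ?_, ?_⟩ <;> rintro rfl <;> omega

theorem lab_self (a : α) : lab pos a a = fun _ => false := by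
  funext i; simp [lab]

theorem lab_comm (hpos : ∀ i, Function.Injective (pos i)) {a b : α} (h : a ≠ b) :
    lab pos b a = fun i => !lab pos a b i := by
  funext i
  have : pos i a ≠ pos i b := fun e => h (hpos i e)
  simp only [lab]
  by_cases h1 : pos i a < pos i b
  · simp [h1]; omega
  · simp [h1]; omega

theorem d_lab_comm (hpos : ∀ i, Function.Injective (pos i)) {a b : α} (h : a ≠ b) (j : Fin 6) :
    d (lab pos b a) j = - d (lab pos a b) j := by
  rw [lab_comm hpos h, d_neg]

/-- the ordering number from the three bits -/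
def pat (x y z : Bool) : Fin 6 :=
  match x, y, z with
  | true, true, false => 0
  | true, false, false => 1
  | false, true, false => 2
  | false, true, true => 3
  | true, false, true => 4
  | false, false, true => 5
  | _, _, _ => 0

theorem pat_spec : ∀ x y z : Bool, ¬ (x = y ∧ y = z) →
    AB (pat x y z) = x ∧ BC (pat x y z) = y ∧ CA (pat x y z) = z := by decide

theorem bits_nonconst (hpos : ∀ i, Function.Injective (pos i)) {a b c : α} (hab : a ≠ b)
    (hbc : b ≠ c) (hac : a ≠ c) (i : Fin 6) :
    ¬ (lab pos a b i = lab pos b c i ∧ lab pos b c i = lab pos c a i) := by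
  have h1 : pos i a ≠ pos i b := fun e => hab (hpos i e)
  have h2 : pos i b ≠ pos i c := fun e => hbc (hpos i e)
  have h3 : pos i a ≠ pos i c := fun e => hac (hpos i e)
  simp only [lab, decide_eq_decide]
  omega

theorem Sh.pat_surj {a b c : α} (h : Sh pos a b c) :
    Function.Surjective fun i => pat (lab pos a b i) (lab pos b c i) (lab pos c a i) := by
  obtain ⟨⟨i0, h0, h0'⟩, ⟨i1, h1, h1'⟩, ⟨i2, h2, h2'⟩, ⟨i3, h3, h3'⟩, ⟨i4, h4, h4'⟩,
      ⟨i5, h5, h5'⟩⟩ := h
  intro o
  fin_cases o
  · refine ⟨i0, ?_⟩
    have e1 : lab pos a b i0 = true := by simp [lab, h0]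
    have e2 : lab pos b c i0 = true := by simp [lab, h0']
    have e3 : lab pos c a i0 = false := by simp [lab]; omega
    simp only [e1, e2, e3]; rfl
  · refine ⟨i1, ?_⟩
    have e1 : lab pos a b i1 = true := by simp [lab]; omega
    have e2 : lab pos b c i1 = false := by simp [lab]; omega
    have e3 : lab pos c a i1 = false := by simp [lab]; omega
    simp only [e1, e2, e3]; rfl
  · refine ⟨i2, ?_⟩
    have e1 : lab pos a b i2 = false := by simp [lab]; omega
    have e2 : lab pos b c i2 = true := by simp [lab]; omega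
    have e3 : lab pos c a i2 = false := by simp [lab]; omega
    simp only [e1, e2, e3]; rfl
  · refine ⟨i3, ?_⟩
    have e1 : lab pos a b i3 = false := by simp [lab]; omega
    have e2 : lab pos b c i3 = true := by simp [lab]; omega
    have e3 : lab pos c a i3 = true := by simp [lab]; omega
    simp only [e1, e2, e3]; rfl
  · refine ⟨i4, ?_⟩
    have e1 : lab pos a b i4 = true := by simp [lab]; omega
    have e2 : lab pos b c i4 = false := by simp [lab]; omega
    have e3 : lab pos c a i4 = true := by simp [lab]; omega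
    simp only [e1, e2, e3]; rfl
  · refine ⟨i5, ?_⟩
    have e1 : lab pos a b i5 = false := by simp [lab]; omega
    have e2 : lab pos b c i5 = false := by simp [lab]; omega
    have e3 : lab pos c a i5 = true := by simp [lab]; omega
    simp only [e1, e2, e3]; rfl

theorem Sh.pat_inj {a b c : α} (h : Sh pos a b c) :
    Function.Injective fun i => pat (lab pos a b i) (lab pos b c i) (lab pos c a i) :=
  Finite.injective_iff_surjective.mpr h.pat_surj

theorem Sh.kap_eq (hpos : ∀ i, Function.Injective (pos i)) {a b c : α} (h : Sh pos a b c) :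
    kap (lab pos a b) (lab pos b c) (lab pos c a) = -6 := by
  obtain ⟨hab, hbc, hac⟩ := h.ne
  let p : Fin 6 → Fin 6 := fun i => pat (lab pos a b i) (lab pos b c i) (lab pos c a i)
  have hp := fun i => pat_spec _ _ _ (bits_nonconst hpos hab hbc hac i)
  have hbij : Function.Bijective p := ⟨h.pat_inj, h.pat_surj⟩
  have := kap_perm (Equiv.ofBijective p hbij)
  have e1 : (fun i => AB (Equiv.ofBijective p hbij i)) = lab pos a b := by
    funext i; exact (hp i).1
  have e2 : (fun i => BC (Equiv.ofBijective p hbij i)) = lab pos b c := by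
    funext i; exact (hp i).2.1
  have e3 : (fun i => CA (Equiv.ofBijective p hbij i)) = lab pos c a := by
    funext i; exact (hp i).2.2
  rw [e1, e2, e3] at this
  exact this

theorem Sh_of_allsix (hpos : ∀ i, Function.Injective (pos i)) {a b c : α} (hab : a ≠ b)
    (hbc : b ≠ c) (hac : a ≠ c)
    (h : allsix (lab pos a b) (lab pos b c) (lab pos c a) = true) : Sh pos a b c := by
  simp only [allsix, Bool.and_eq_true, List.any_eq_true, Bool.not_eq_true', lab,
    decide_eq_true_eq, decide_eq_false_iff_not] at h
  have key : ∀ i, pos i a ≠ pos i b ∧ pos i b ≠ pos i c ∧ pos i a ≠ pos i c := fun i =>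
    ⟨fun e => hab (hpos i e), fun e => hbc (hpos i e), fun e => hac (hpos i e)⟩
  obtain ⟨⟨⟨⟨⟨⟨i0, -, h0⟩, ⟨i1, -, h1⟩⟩, ⟨i2, -, h2⟩⟩, ⟨i3, -, h3⟩⟩, ⟨i4, -, h4⟩⟩,
    ⟨i5, -, h5⟩⟩ := h
  refine ⟨⟨i0, ?_⟩, ⟨i1, ?_⟩, ⟨i2, ?_⟩, ⟨i3, ?_⟩, ⟨i4, ?_⟩, ⟨i5, ?_⟩⟩
  · have := key i0; omega
  · have := key i1; omega
  · have := key i2; omega
  · have := key i3; omega
  · have := key i4; omega
  · have := key i5; omega

variable (pos)

/-- inner product of the vectors of `(a, b)` and `(a, c)` -/
def T (a b c : α) : ℤ := ∑ j, d (lab pos a b) j * d (lab pos a c) j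

variable {pos}

theorem T_left (a c : α) : T pos a a c = 0 := by
  simp [T, lab_self, d_false]

theorem T_right (a b : α) : T pos a b a = 0 := by
  simp [T, lab_self, d_false]

theorem T_diag_le (a b : α) : T pos a b b ≤ 6 := by
  have h : ∀ j ∈ (Finset.univ : Finset (Fin 6)), d (lab pos a b) j * d (lab pos a b) j ≤ 1 := by
    intro j _
    rcases d_cases (lab pos a b) j with hx | hx | hx <;> rw [hx] <;> norm_num
  have := Finset.sum_le_sum h
  simpa [T] using this

theorem T_cyc_distinct (hpos : ∀ i, Function.Injective (pos i)) {a b c : α} (hab : a ≠ b)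
    (hbc : b ≠ c) (hac : a ≠ c) :
    T pos a b c + T pos b c a + T pos c a b = kap (lab pos a b) (lab pos b c) (lab pos c a) := by
  unfold T kap
  rw [← Finset.sum_add_distrib, ← Finset.sum_add_distrib, ← Finset.sum_neg_distrib]
  apply Finset.sum_congr rfl
  intro j _
  rw [d_lab_comm hpos hac.symm j, d_lab_comm hpos hab j, d_lab_comm hpos hbc j,
    d_lab_comm hpos hac j]
  ring


variable [Fintype α] [DecidableEq α]

variable (pos) in
/-- the number of ordered shattered triples -/
def num : ℕ := ∑ a : α, ∑ b : α, ∑ c : α, if Sh pos a b c then 1 else 0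

variable (pos) in
/-- the energy: sum of squares of the entries of the vectors `∑ b, d (lab pos a b)` -/
def energy : ℤ := ∑ a : α, ∑ j : Fin 6, (∑ b : α, d (lab pos a b) j) ^ 2

theorem sum_T_eq_energy : ∑ a : α, ∑ b : α, ∑ c : α, T pos a b c = energy pos := by
  unfold energy T
  apply Finset.sum_congr rfl
  intro a _
  calc ∑ b : α, ∑ c : α, ∑ j, d (lab pos a b) j * d (lab pos a c) j
      = ∑ b : α, ∑ j, ∑ c : α, d (lab pos a b) j * d (lab pos a c) j := by
        apply Finset.sum_congr rfl; intro b _; rw [Finset.sum_comm]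
    _ = ∑ j, ∑ b : α, ∑ c : α, d (lab pos a b) j * d (lab pos a c) j := by
        rw [Finset.sum_comm]
    _ = ∑ j : Fin 6, (∑ b : α, d (lab pos a b) j) ^ 2 := by
        apply Finset.sum_congr rfl; intro j _
        rw [sq, Finset.sum_mul_sum]

theorem sum_cyc : 3 * ∑ a : α, ∑ b : α, ∑ c : α, T pos a b c =
    ∑ a : α, ∑ b : α, ∑ c : α, (T pos a b c + T pos b c a + T pos c a b) := by
  have h1 : ∑ a : α, ∑ b : α, ∑ c : α, T pos b c a = ∑ a : α, ∑ b : α, ∑ c : α, T pos a b c := by
    calc ∑ a : α, ∑ b : α, ∑ c : α, T pos b c a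
        = ∑ b : α, ∑ a : α, ∑ c : α, T pos b c a := Finset.sum_comm
      _ = ∑ b : α, ∑ c : α, ∑ a : α, T pos b c a := by
          apply Finset.sum_congr rfl; intro b _; exact Finset.sum_comm
  have h2 : ∑ a : α, ∑ b : α, ∑ c : α, T pos c a b = ∑ a : α, ∑ b : α, ∑ c : α, T pos a b c := by
    calc ∑ a : α, ∑ b : α, ∑ c : α, T pos c a b
        = ∑ a : α, ∑ c : α, ∑ b : α, T pos c a b := by
          apply Finset.sum_congr rfl; intro b _; exact Finset.sum_comm
      _ = ∑ c : α, ∑ a : α, ∑ b : α, T pos c a b := Finset.sum_comm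
  simp only [Finset.sum_add_distrib]
  rw [h1, h2]
  ring

theorem cyc_le (hpos : ∀ i, Function.Injective (pos i)) (a b c : α) :
    T pos a b c + T pos b c a + T pos c a b ≤
      6 * (1 - (if a = b ∧ b = c then 1 else 0)) - 12 * (if Sh pos a b c then 1 else 0) := by
  by_cases hab : a = b
  · subst hab
    have hS : ¬ Sh pos a a c := fun h => h.ne.1 rfl
    by_cases hac : a = c
    · subst hac
      simp [hS, T_left]
    · have h1 := T_diag_le (pos := pos) c a
      simp only [hS, T_left, T_right, hac]
      norm_num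
      exact h1
  · by_cases hbc : b = c
    · subst hbc
      have hS : ¬ Sh pos a b b := fun h => h.ne.2.1 rfl
      have h1 := T_diag_le (pos := pos) a b
      simp only [hS, T_left, T_right, hab]
      norm_num
      exact h1
    · by_cases hac : a = c
      · subst hac
        have hS : ¬ Sh pos a b a := fun h => h.ne.2.2 rfl
        have h1 := T_diag_le (pos := pos) b a
        simp only [hS, T_left, T_right, hab]
        norm_num
        exact h1
      · rw [T_cyc_distinct hpos hab hbc hac]
        by_cases hS : Sh pos a b c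
        · rw [hS.kap_eq hpos]
          simp [hS, hab]
        · have := kap_le (lab pos a b) (lab pos b c) (lab pos c a)
          simp [hS, hab]
          exact this

theorem sum_diag : ∑ a : α, ∑ b : α, ∑ c : α, (if a = b ∧ b = c then (1 : ℤ) else 0) =
    Fintype.card α := by
  have : ∀ a : α, ∑ b : α, ∑ c : α, (if a = b ∧ b = c then (1 : ℤ) else 0) = 1 := by
    intro a
    rw [Finset.sum_eq_single a]
    · rw [Finset.sum_eq_single a]
      · simp
      · intro c _ hc
        simp [Ne.symm hc]
      · simp
    · intro b _ hb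
      simp [Ne.symm hb]
    · simp
  rw [Finset.sum_congr rfl (fun a _ => this a)]
  simp

theorem sum_rhs (t : ℤ) : ∑ a : α, ∑ b : α, ∑ c : α,
    (6 * (1 - (if a = b ∧ b = c then 1 else 0)) - t * (if Sh pos a b c then 1 else 0)) =
    6 * ((Fintype.card α : ℤ) ^ 3 - Fintype.card α) - t * num pos := by
  have h1 : ∑ a : α, ∑ b : α, ∑ c : α, (if Sh pos a b c then (1 : ℤ) else 0) = (num pos : ℤ) := by
    unfold num
    push_cast
    rfl
  simp only [Finset.sum_sub_distrib, ← Finset.mul_sum]
  rw [sum_diag, h1]
  simp only [Finset.sum_const, Finset.card_univ, nsmul_eq_mul, mul_one]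
  ring

/-- The number of ordered shattered triples is at most `(n³ - n) / 2`. -/
theorem num_le (hpos : ∀ i, Function.Injective (pos i)) :
    2 * (num pos : ℤ) ≤ (Fintype.card α : ℤ) ^ 3 - Fintype.card α := by
  have h0 : 0 ≤ energy pos := by
    unfold energy
    exact Finset.sum_nonneg fun a _ => Finset.sum_nonneg fun j _ => sq_nonneg _
  rw [← sum_T_eq_energy] at h0
  have h1 := sum_cyc (pos := pos)
  have h2 : ∑ a : α, ∑ b : α, ∑ c : α, (T pos a b c + T pos b c a + T pos c a b) ≤
      ∑ a : α, ∑ b : α, ∑ c : α,
        (6 * (1 - (if a = b ∧ b = c then 1 else 0)) - 12 * (if Sh pos a b c then 1 else 0)) :=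
    Finset.sum_le_sum fun a _ => Finset.sum_le_sum fun b _ => Finset.sum_le_sum fun c _ =>
      cyc_le hpos a b c
  rw [sum_rhs 12, ← h1] at h2
  linarith

/-- If all pairs are balanced, the number of ordered shattered triples is determined by the
energy. -/
theorem num_ge (hpos : ∀ i, Function.Injective (pos i))
    (hbal : ∀ a b : α, a ≠ b → bal (lab pos a b) = true) :
    6 * ((Fintype.card α : ℤ) ^ 3 - Fintype.card α) - 3 * energy pos ≤ 12 * num pos := by
  have hd : ∀ a b : α, a ≠ b → T pos a b b = 6 := by
    intro a b hab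
    have h1 : ∀ x : Fin 6 → Bool, bal x = true → ∑ j, d x j * d x j = 6 := by decide +kernel
    exact h1 _ (hbal a b hab)
  have key : ∀ a b c : α,
      6 * (1 - (if a = b ∧ b = c then 1 else 0)) - 12 * (if Sh pos a b c then 1 else 0) ≤
      T pos a b c + T pos b c a + T pos c a b := by
    intro a b c
    by_cases hab : a = b
    · subst hab
      have hS : ¬ Sh pos a a c := fun h => h.ne.1 rfl
      by_cases hac : a = c
      · subst hac
        simp [hS, T_left]
      · simp only [hS, T_left, T_right, hac, hd c a (Ne.symm hac)]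
        norm_num
    · by_cases hbc : b = c
      · subst hbc
        have hS : ¬ Sh pos a b b := fun h => h.ne.2.1 rfl
        simp only [hS, T_left, T_right, hab, hd a b hab]
        norm_num
      · by_cases hac : a = c
        · subst hac
          have hS : ¬ Sh pos a b a := fun h => h.ne.2.2 rfl
          simp only [hS, T_left, T_right, hab, hd b a (Ne.symm hab)]
          norm_num
        · rw [T_cyc_distinct hpos hab hbc hac]
          have hnc : nonconst (lab pos a b) (lab pos b c) (lab pos c a) = true := by
            simp only [nonconst, List.all_eq_true, Bool.not_eq_true', Bool.and_eq_false_iff]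
            intro i _
            have := bits_nonconst hpos hab hbc hac i
            by_contra hcon
            push Not at hcon
            simp only [ne_eq, Bool.not_eq_false, beq_iff_eq] at hcon
            exact this hcon
          rcases main_check _ (hbal a b hab) _ (hbal b c hbc) _ (hbal c a (Ne.symm hac)) hnc with
            ⟨h1, h2⟩ | ⟨h1, h2⟩
          · have hS := Sh_of_allsix hpos hab hbc hac h1
            simp [hS, hab, h2]
          · by_cases hS : Sh pos a b c
            · have := hS.kap_eq hpos
              simp [hS, hab, this]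
            · simp [hS, hab, h2]
  have h2 := Finset.sum_le_sum fun a (_ : a ∈ (Finset.univ : Finset α)) =>
    Finset.sum_le_sum fun b (_ : b ∈ (Finset.univ : Finset α)) =>
      Finset.sum_le_sum fun c (_ : c ∈ (Finset.univ : Finset α)) => key a b c
  rw [sum_rhs 12, ← sum_cyc, sum_T_eq_energy] at h2
  linarith

end Pool.Agent.H61.Shatter
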