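import Pool.Agent.H61.Shatter.Blow

set_option autoImplicit false
set_option linter.unusedSectionVars false

open Finset

namespace Pool.Agent.H61.Shatter

/-- `R` shatters `X`: every ordering of `X` (enumeration `g` of `X`) is realised by some `P ∈ R`,
`P` being the linear order `P 0, P 1, …`. -/
def Shatters (k : ℕ) {n : ℕ} (R : Finset (Equiv.Perm (Fin n))) (X : Finset (Fin n)) : Prop :=
  ∀ g : Fin k ↪ Fin n, Finset.univ.map g = X →
    ∃ P ∈ R, ∀ i j : Fin k, i < j → P.symm (g i) < P.symm (g j)

open Classical in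
/-- the number of `k`-sets shattered by `R` -/
noncomputable def shattered (k : ℕ) {n : ℕ} (R : Finset (Equiv.Perm (Fin n))) : ℕ :=
  (((Finset.univ : Finset (Fin n)).powersetCard k).filter fun X => Shatters k R X).card

/-- `F_k(n, m)` -/
noncomputable def F (k n m : ℕ) : ℝ :=
  sSup {α : ℝ | ∃ R : Finset (Equiv.Perm (Fin n)), R.card = m ∧
    α = (shattered k R : ℝ) / (n.choose k : ℝ)}

section Sh

variable {α : Type*} {pos : Fin 6 → α → ℕ}

theorem Sh.swap12 {a b c : α} (h : Sh pos a b c) : Sh pos b a c :=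
  ⟨h.2.2.1, h.2.2.2.1, h.1, h.2.1, h.2.2.2.2.2, h.2.2.2.2.1⟩

theorem Sh.swap23 {a b c : α} (h : Sh pos a b c) : Sh pos a c b :=
  ⟨h.2.1, h.1, h.2.2.2.2.1, h.2.2.2.2.2, h.2.2.1, h.2.2.2.1⟩

end Sh

variable {n : ℕ}

/-- the embedding of `Fin 3` given by three distinct elements -/
def emb3 {a b c : Fin n} (hab : a ≠ b) (hbc : b ≠ c) (hac : a ≠ c) : Fin 3 ↪ Fin n where
  toFun := ![a, b, c]
  inj' := by
    intro i j h
    fin_cases i <;> fin_cases j <;> simp_all

theorem map_emb3 {a b c : Fin n} (hab : a ≠ b) (hbc : b ≠ c) (hac : a ≠ c) :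
    Finset.univ.map (emb3 hab hbc hac) = {a, b, c} := by
  ext x
  simp only [Finset.mem_map, Finset.mem_univ, true_and, Finset.mem_insert, Finset.mem_singleton]
  constructor
  · rintro ⟨i, rfl⟩
    fin_cases i
    · exact Or.inl rfl
    · exact Or.inr (Or.inl rfl)
    · exact Or.inr (Or.inr rfl)
  · rintro (rfl | rfl | rfl)
    · exact ⟨0, rfl⟩
    · exact ⟨1, rfl⟩
    · exact ⟨2, rfl⟩

theorem map_univ3 (g : Fin 3 ↪ Fin n) : Finset.univ.map g = {g 0, g 1, g 2} := by
  ext x
  simp only [Finset.mem_map, Finset.mem_univ, true_and, Finset.mem_insert, Finset.mem_singleton]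
  constructor
  · rintro ⟨i, rfl⟩
    fin_cases i <;> simp
  · rintro (rfl | rfl | rfl)
    · exact ⟨0, rfl⟩
    · exact ⟨1, rfl⟩
    · exact ⟨2, rfl⟩

/-- three distinct elements with the same underlying set are a rearrangement -/
theorem rearr {a b c x y z : Fin n} (hab : a ≠ b) (hbc : b ≠ c) (hac : a ≠ c)
    (h : ({a, b, c} : Finset (Fin n)) = {x, y, z}) :
    (a = x ∧ b = y ∧ c = z) ∨ (a = x ∧ b = z ∧ c = y) ∨ (a = y ∧ b = x ∧ c = z) ∨
    (a = y ∧ b = z ∧ c = x) ∨ (a = z ∧ b = x ∧ c = y) ∨ (a = z ∧ b = y ∧ c = x) := by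
  have ha : a ∈ ({x, y, z} : Finset (Fin n)) := by rw [← h]; simp
  have hb : b ∈ ({x, y, z} : Finset (Fin n)) := by rw [← h]; simp
  have hc : c ∈ ({x, y, z} : Finset (Fin n)) := by rw [← h]; simp
  simp only [Finset.mem_insert, Finset.mem_singleton] at ha hb hc
  rcases ha with rfl | rfl | rfl <;> rcases hb with rfl | rfl | rfl <;>
    rcases hc with rfl | rfl | rfl <;> simp_all

theorem Sh.rearr {pos : Fin 6 → Fin n → ℕ} {a b c x y z : Fin n} (hS : Sh pos a b c)
    (hxy : x ≠ y) (hyz : y ≠ z) (hxz : x ≠ z)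
    (h : ({x, y, z} : Finset (Fin n)) = {a, b, c}) : Sh pos x y z := by
  rcases Pool.Agent.H61.Shatter.rearr hxy hyz hxz h with ⟨rfl, rfl, rfl⟩ | ⟨rfl, rfl, rfl⟩ |
    ⟨rfl, rfl, rfl⟩ | ⟨rfl, rfl, rfl⟩ | ⟨rfl, rfl, rfl⟩ | ⟨rfl, rfl, rfl⟩
  · exact hS
  · exact hS.swap23
  · exact hS.swap12
  · exact hS.swap12.swap23
  · exact hS.swap23.swap12
  · exact hS.swap12.swap23.swap12

/-- the family `R` and the position functions `pos` describe the same six orders -/
def Match (R : Finset (Equiv.Perm (Fin n))) (pos : Fin 6 → Fin n → ℕ) : Prop :=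
  ∃ P : Fin 6 → Equiv.Perm (Fin n), Finset.univ.image P = R ∧
    ∀ i x y, (P i).symm x < (P i).symm y ↔ pos i x < pos i y

theorem Match.shatters_iff {R : Finset (Equiv.Perm (Fin n))} {pos : Fin 6 → Fin n → ℕ}
    (hm : Match R pos) {a b c : Fin n} (hab : a ≠ b) (hbc : b ≠ c) (hac : a ≠ c) :
    Shatters 3 R {a, b, c} ↔ Sh pos a b c := by
  obtain ⟨P, hP, hlt⟩ := hm
  constructor
  · intro h
    have key : ∀ x y z : Fin n, x ≠ y → y ≠ z → x ≠ z → ({x, y, z} : Finset (Fin n)) = {a, b, c} →
        ∃ i, pos i x < pos i y ∧ pos i y < pos i z := by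
      intro x y z hxy hyz hxz he
      obtain ⟨Q, hQ, hQlt⟩ := h (emb3 hxy hyz hxz) (by rw [map_emb3, he])
      rw [← hP] at hQ
      obtain ⟨i, -, rfl⟩ := Finset.mem_image.mp hQ
      refine ⟨i, ?_, ?_⟩
      · rw [← hlt]; exact hQlt 0 1 (by decide)
      · rw [← hlt]; exact hQlt 1 2 (by decide)
    refine ⟨key a b c hab hbc hac rfl, key a c b hac hbc.symm hab ?_,
      key b a c hab.symm hac hbc ?_, key b c a hbc hac.symm hab.symm ?_,
      key c a b hac.symm hab hbc.symm ?_, key c b a hbc.symm hab.symm hac.symm ?_⟩ <;>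
    · ext t
      simp only [Finset.mem_insert, Finset.mem_singleton]
      tauto
  · intro hS g hg
    rw [map_univ3] at hg
    have h01 : g 0 ≠ g 1 := fun e => by simpa using g.injective e
    have h12 : g 1 ≠ g 2 := fun e => by simpa using g.injective e
    have h02 : g 0 ≠ g 2 := fun e => by simpa using g.injective e
    obtain ⟨i, h1, h2⟩ := (hS.rearr h01 h12 h02 hg).1
    refine ⟨P i, ?_, ?_⟩
    · rw [← hP]; exact Finset.mem_image_of_mem _ (Finset.mem_univ _)
    · rw [← hlt] at h1 h2
      intro j k hjk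
      fin_cases j <;> fin_cases k <;> first | exact h1 | exact h2 | exact h1.trans h2 | (exfalso; revert hjk; decide)

/-- Counting: ordered shattered triples against shattered `3`-sets. -/
theorem Match.num_eq {R : Finset (Equiv.Perm (Fin n))} {pos : Fin 6 → Fin n → ℕ}
    (hm : Match R pos) : num pos = 6 * shattered 3 R := by
  classical
  have h1 : num pos =
      ((Finset.univ : Finset (Fin n × Fin n × Fin n)).filter
        fun t => Sh pos t.1 t.2.1 t.2.2).card := by
    rw [Finset.card_filter]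
    unfold num
    simp only [Fintype.sum_prod_type]
  rw [h1, Finset.card_eq_sum_card_fiberwise
    (f := fun t : Fin n × Fin n × Fin n => ({t.1, t.2.1, t.2.2} : Finset (Fin n)))
    (t := ((Finset.univ : Finset (Fin n)).powersetCard 3).filter fun X => Shatters 3 R X)]
  · unfold shattered
    rw [mul_comm, ← smul_eq_mul, ← Finset.sum_const]
    apply Finset.sum_congr rfl
    intro X hX
    rw [Finset.mem_filter, Finset.mem_powersetCard] at hX
    obtain ⟨⟨-, hcard⟩, hshat⟩ := hX
    obtain ⟨x, y, z, hxy, hxz, hyz, rfl⟩ := Finset.card_eq_three.mp hcard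
    have hS := (hm.shatters_iff hxy hyz hxz).mp hshat
    have hset : ((Finset.univ : Finset (Fin n × Fin n × Fin n)).filter
        fun t => Sh pos t.1 t.2.1 t.2.2).filter
          (fun t => ({t.1, t.2.1, t.2.2} : Finset (Fin n)) = {x, y, z}) =
        {(x, y, z), (x, z, y), (y, x, z), (y, z, x), (z, x, y), (z, y, x)} := by
      ext ⟨a, b, c⟩
      simp only [Finset.mem_filter, Finset.mem_univ, true_and, Finset.mem_insert,
        Finset.mem_singleton, Prod.mk.injEq]
      constructor
      · rintro ⟨h, he⟩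
        obtain ⟨hab, hbc, hac⟩ := h.ne
        exact Pool.Agent.H61.Shatter.rearr hab hbc hac he
      · rintro (⟨rfl, rfl, rfl⟩ | ⟨rfl, rfl, rfl⟩ | ⟨rfl, rfl, rfl⟩ | ⟨rfl, rfl, rfl⟩ |
          ⟨rfl, rfl, rfl⟩ | ⟨rfl, rfl, rfl⟩)
        · exact ⟨hS, rfl⟩
        · exact ⟨hS.swap23, by ext t; simp only [Finset.mem_insert, Finset.mem_singleton]; tauto⟩
        · exact ⟨hS.swap12, by ext t; simp only [Finset.mem_insert, Finset.mem_singleton]; tauto⟩
        · exact ⟨hS.swap12.swap23, by
            ext t; simp only [Finset.mem_insert, Finset.mem_singleton]; tauto⟩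
        · exact ⟨hS.swap23.swap12, by
            ext t; simp only [Finset.mem_insert, Finset.mem_singleton]; tauto⟩
        · exact ⟨hS.swap12.swap23.swap12, by
            ext t; simp only [Finset.mem_insert, Finset.mem_singleton]; tauto⟩
    rw [hset]
    rw [Finset.card_insert_of_notMem, Finset.card_insert_of_notMem, Finset.card_insert_of_notMem,
      Finset.card_insert_of_notMem, Finset.card_insert_of_notMem, Finset.card_singleton] <;>
    · simp only [Finset.mem_insert, Finset.mem_singleton, Prod.mk.injEq]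
      tauto
  · intro t ht
    rw [Finset.mem_coe, Finset.mem_filter] at ht
    have hS := ht.2
    obtain ⟨hab, hbc, hac⟩ := hS.ne
    rw [Finset.mem_coe, Finset.mem_filter, Finset.mem_powersetCard]
    exact ⟨⟨Finset.subset_univ _, Finset.card_eq_three.mpr ⟨_, _, _, hab, hac, hbc, rfl⟩⟩,
      (hm.shatters_iff hab hbc hac).mpr hS⟩

/-- every family of six permutations is described by position functions -/
theorem exists_pos (R : Finset (Equiv.Perm (Fin n))) (hR : R.card = 6) :
    ∃ pos : Fin 6 → Fin n → ℕ, (∀ i, Function.Injective (pos i)) ∧ Match R pos := by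
  let e : Fin 6 ≃ R := (finCongr hR.symm).trans R.equivFin.symm
  refine ⟨fun i x => ((e i : Equiv.Perm (Fin n)).symm x : ℕ), ?_, ⟨fun i => e i, ?_, ?_⟩⟩
  · intro i x y h
    exact (e i : Equiv.Perm (Fin n)).symm.injective (Fin.val_injective h)
  · ext P
    simp only [Finset.mem_image, Finset.mem_univ, true_and]
    constructor
    · rintro ⟨i, rfl⟩; exact (e i).2
    · intro hP; exact ⟨e.symm ⟨P, hP⟩, by simp⟩
  · intro i x y
    exact Fin.lt_def

/-- position functions with at least one shattered triple come from a family of exactly six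
permutations -/
theorem exists_family {pos : Fin 6 → Fin n → ℕ} (hpos : ∀ i, Function.Injective (pos i))
    (h : 0 < num pos) : ∃ R : Finset (Equiv.Perm (Fin n)), R.card = 6 ∧ Match R pos := by
  classical
  have hcard : ∀ i, ((Finset.univ : Finset (Fin n)).image (pos i)).card = n := by
    intro i
    rw [Finset.card_image_of_injective _ (hpos i)]
    simp
  let q : ∀ i, Fin n ≃ ((Finset.univ : Finset (Fin n)).image (pos i)) := fun i =>
    Equiv.ofBijective (fun x => ⟨pos i x, Finset.mem_image_of_mem _ (Finset.mem_univ _)⟩) (by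
      constructor
      · intro x y hxy
        exact hpos i (by simpa using hxy)
      · rintro ⟨v, hv⟩
        obtain ⟨x, -, rfl⟩ := Finset.mem_image.mp hv
        exact ⟨x, rfl⟩)
  let P : Fin 6 → Equiv.Perm (Fin n) := fun i =>
    ((((Finset.univ : Finset (Fin n)).image (pos i)).orderIsoOfFin (hcard i)).toEquiv).trans
      (q i).symm
  have hlt : ∀ i x y, (P i).symm x < (P i).symm y ↔ pos i x < pos i y := by
    intro i x y
    have e : ∀ x, (P i).symm x =
        (((Finset.univ : Finset (Fin n)).image (pos i)).orderIsoOfFin (hcard i)).symm (q i x) := by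
      intro x; rfl
    rw [e, e, OrderIso.lt_iff_lt]
    rfl
  have hex : ∃ a b c, Sh pos a b c := by
    by_contra hcon
    push Not at hcon
    have : num pos = 0 := by
      unfold num
      simp [hcon]
    omega
  obtain ⟨a, b, c, hS⟩ := hex
  have hPinj : Function.Injective P := by
    intro i j hij
    apply hS.pat_inj
    have hl : ∀ x y, lab pos x y i = lab pos x y j := by
      intro x y
      simp only [lab, decide_eq_decide]
      rw [← hlt i, ← hlt j, hij]
    simp only [hl]
  refine ⟨Finset.univ.image P, ?_, ⟨P, rfl, hlt⟩⟩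
  rw [Finset.card_image_of_injective _ hPinj]
  simp

end Pool.Agent.H61.Shatter
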