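import Pool.Agent.H61.Shatter.Family

set_option autoImplicit false
set_option linter.unusedSectionVars false

open Finset Filter Topology

namespace Pool.Agent.H61.Shatter

theorem choose3 (n : ℕ) (hn : 3 ≤ n) :
    6 * ((n.choose 3 : ℕ) : ℝ) = (n : ℝ) * (n - 1) * (n - 2) := by
  have h := Nat.descFactorial_eq_factorial_mul_choose n 3
  have h2 : n.descFactorial 3 = (n - 2) * ((n - 1) * (n * 1)) := by
    simp [Nat.descFactorial]
  rw [h2] at h
  have h3 : ((n - 2) * ((n - 1) * (n * 1)) : ℕ) = 6 * n.choose 3 := by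
    rw [h]; rfl
  have h4 : (((n - 2) * ((n - 1) * (n * 1)) : ℕ) : ℝ) = (n - 2) * ((n - 1) * n) := by
    push_cast [Nat.cast_sub (by omega : 2 ≤ n), Nat.cast_sub (by omega : 1 ≤ n)]
    ring
  rw [h3] at h4
  push_cast at h4
  rw [h4]; ring

theorem pos3 (n : ℕ) (hn : 3 ≤ n) : 0 < (n : ℝ) * (n - 1) * (n - 2) := by
  have : (3 : ℝ) ≤ n := by exact_mod_cast hn
  have h1 : 0 < (n : ℝ) - 1 := by linarith
  have h2 : 0 < (n : ℝ) - 2 := by linarith
  positivity

theorem ratio_eq {n : ℕ} (hn : 3 ≤ n) {R : Finset (Equiv.Perm (Fin n))}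
    {pos : Fin 6 → Fin n → ℕ} (hm : Match R pos) :
    (shattered 3 R : ℝ) / (n.choose 3 : ℝ) = (num pos : ℝ) / ((n : ℝ) * (n - 1) * (n - 2)) := by
  rw [hm.num_eq, ← choose3 n hn]
  push_cast
  rw [mul_div_mul_left _ _ (by norm_num)]

theorem F_bddAbove (k n m : ℕ) : BddAbove {α : ℝ | ∃ R : Finset (Equiv.Perm (Fin n)), R.card = m ∧
    α = (shattered k R : ℝ) / (n.choose k : ℝ)} := by
  refine ⟨1, ?_⟩
  rintro x ⟨R, -, rfl⟩
  apply div_le_one_of_le₀ _ (by positivity)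
  have : shattered k R ≤ n.choose k := by
    classical
    unfold shattered
    apply le_trans (Finset.card_filter_le _ _)
    simp [Finset.card_powersetCard]
  exact_mod_cast this

theorem F_nonempty {n : ℕ} (hn : 3 ≤ n) (k : ℕ) :
    {α : ℝ | ∃ R : Finset (Equiv.Perm (Fin n)), R.card = 6 ∧
    α = (shattered k R : ℝ) / (n.choose k : ℝ)}.Nonempty := by
  have h6 : 6 ≤ (Finset.univ : Finset (Equiv.Perm (Fin n))).card := by
    rw [Finset.card_univ, Fintype.card_perm, Fintype.card_fin]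
    calc 6 = Nat.factorial 3 := rfl
      _ ≤ Nat.factorial n := Nat.factorial_le hn
  obtain ⟨R, -, hR⟩ := Finset.exists_subset_card_eq h6
  exact ⟨_, R, hR, rfl⟩

theorem F_le {n : ℕ} (hn : 3 ≤ n) {B : ℝ}
    (h : ∀ pos : Fin 6 → Fin n → ℕ, (∀ i, Function.Injective (pos i)) →
      (num pos : ℝ) / ((n : ℝ) * (n - 1) * (n - 2)) ≤ B) : F 3 n 6 ≤ B := by
  apply csSup_le (F_nonempty hn 3)
  rintro x ⟨R, hR, rfl⟩
  obtain ⟨pos, hpos, hm⟩ := exists_pos R hR
  rw [ratio_eq hn hm]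
  exact h pos hpos

theorem F_nonneg {n : ℕ} (hn : 3 ≤ n) : 0 ≤ F 3 n 6 := by
  obtain ⟨x, R, hR, hx⟩ := F_nonempty hn 3
  have h1 : x ≤ F 3 n 6 := le_csSup (F_bddAbove 3 n 6) ⟨R, hR, hx⟩
  have h2 : 0 ≤ x := by rw [hx]; positivity
  linarith

theorem le_F {n : ℕ} (hn : 3 ≤ n) {pos : Fin 6 → Fin n → ℕ}
    (hpos : ∀ i, Function.Injective (pos i)) :
    (num pos : ℝ) / ((n : ℝ) * (n - 1) * (n - 2)) ≤ F 3 n 6 := by
  rcases Nat.eq_zero_or_pos (num pos) with h0 | h0
  · rw [h0]; simpa using F_nonneg hn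
  · obtain ⟨R, hR, hm⟩ := exists_family hpos h0
    rw [← ratio_eq hn hm]
    exact le_csSup (F_bddAbove 3 n 6) ⟨R, hR, rfl⟩

/-- transfer of configurations to `Fin n` -/
theorem le_F' {α : Type*} [Fintype α] [DecidableEq α] {n : ℕ} (hn : 3 ≤ n)
    (hc : Fintype.card α = n) {pos : Fin 6 → α → ℕ} (hpos : ∀ i, Function.Injective (pos i)) :
    (num pos : ℝ) / ((n : ℝ) * (n - 1) * (n - 2)) ≤ F 3 n 6 := by
  let e : Fin n ≃ α := (Fintype.equivFinOfCardEq hc).symm
  have h1 : num pos = num (fun i x => pos i (e x)) := by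
    unfold num
    rw [← Equiv.sum_comp e]
    apply Finset.sum_congr rfl
    intro a _
    rw [← Equiv.sum_comp e]
    apply Finset.sum_congr rfl
    intro b _
    rw [← Equiv.sum_comp e]
    rfl
  rw [h1]
  exact le_F hn fun i => (hpos i).comp e.injective

/-- the upper bound for every `n` -/
theorem F_upper {n : ℕ} (hn : 3 ≤ n) : F 3 n 6 ≤ (n + 1) / (2 * (n - 2)) := by
  apply F_le hn
  intro pos hpos
  have h := num_le hpos
  rw [Fintype.card_fin] at h
  have h' : 2 * (num pos : ℝ) ≤ (n : ℝ) ^ 3 - n := by exact_mod_cast h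
  have h3 : (3 : ℝ) ≤ n := by exact_mod_cast hn
  rw [div_le_div_iff₀ (pos3 n hn) (by linarith)]
  have h4 : 0 ≤ (n : ℝ) - 2 := by linarith
  calc (num pos : ℝ) * (2 * (n - 2)) = (2 * (num pos : ℝ)) * (n - 2) := by ring
    _ ≤ ((n : ℝ) ^ 3 - n) * (n - 2) := mul_le_mul_of_nonneg_right h' h4
    _ = (n + 1) * (n * (n - 1) * (n - 2)) := by ring

theorem sum_succAbove {n : ℕ} (x : Fin (n + 1)) (f : Fin (n + 1) → ℕ) :
    ∑ a : Fin n, f (x.succAbove a) = ∑ a : Fin (n + 1), if a = x then 0 else f a := by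
  rw [Fin.sum_univ_succAbove _ x]
  simp [Fin.succAbove_ne]

theorem sum3_succAbove {n : ℕ} (x : Fin (n + 1))
    (G : Fin (n + 1) → Fin (n + 1) → Fin (n + 1) → ℕ) :
    ∑ a : Fin n, ∑ b : Fin n, ∑ c : Fin n, G (x.succAbove a) (x.succAbove b) (x.succAbove c) =
      ∑ a, ∑ b, ∑ c, if (a = x ∨ b = x ∨ c = x) then 0 else G a b c := by
  have h1 : ∀ a b, ∑ c : Fin n, G a b (x.succAbove c) = ∑ c, if c = x then 0 else G a b c :=
    fun a b => sum_succAbove x (G a b)
  have h2 : ∀ a, ∑ b : Fin n, ∑ c, (if c = x then 0 else G a (x.succAbove b) c) =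
      ∑ b, if b = x then 0 else ∑ c, (if c = x then 0 else G a b c) :=
    fun a => sum_succAbove x (fun b => ∑ c, if c = x then 0 else G a b c)
  have h3 : ∑ a : Fin n, ∑ b, (if b = x then 0 else
        ∑ c, (if c = x then 0 else G (x.succAbove a) b c)) =
      ∑ a, if a = x then 0 else ∑ b, (if b = x then 0 else
        ∑ c, (if c = x then 0 else G a b c)) :=
    sum_succAbove x (fun a => ∑ b, (if b = x then 0 else ∑ c, (if c = x then 0 else G a b c)))
  simp only [h1, h2, h3]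
  apply Finset.sum_congr rfl
  intro a _
  by_cases ha : a = x
  · simp [ha]
  · simp only [ha, if_false, false_or]
    apply Finset.sum_congr rfl
    intro b _
    by_cases hb : b = x
    · simp [hb]
    · simp only [hb, if_false, false_or]

/-- averaging over deletions -/
theorem sum_delete {n : ℕ} (hn : 3 ≤ n) (pos : Fin 6 → Fin (n + 1) → ℕ) :
    ∑ x : Fin (n + 1), num (fun i a => pos i (x.succAbove a)) = (n - 2) * num pos := by
  have h1 : ∀ x : Fin (n + 1), num (fun i a => pos i (x.succAbove a)) =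
      ∑ a, ∑ b, ∑ c, if (a = x ∨ b = x ∨ c = x) then 0 else (if Sh pos a b c then 1 else 0) := by
    intro x
    exact sum3_succAbove x (fun a b c => if Sh pos a b c then 1 else 0)
  simp only [h1]
  unfold num
  rw [Finset.sum_comm, Finset.mul_sum]
  apply Finset.sum_congr rfl
  intro a _
  rw [Finset.sum_comm, Finset.mul_sum]
  apply Finset.sum_congr rfl
  intro b _
  rw [Finset.sum_comm, Finset.mul_sum]
  apply Finset.sum_congr rfl
  intro c _
  by_cases hS : Sh pos a b c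
  · obtain ⟨hab, hbc, hac⟩ := hS.ne
    simp only [hS, if_true, mul_one]
    have h2 : ∀ x : Fin (n + 1), (if (a = x ∨ b = x ∨ c = x) then 0 else 1 : ℕ) =
        if x ∈ ({a, b, c} : Finset (Fin (n + 1))) then 0 else 1 := by
      intro x
      simp only [Finset.mem_insert, Finset.mem_singleton, eq_comm]
    simp only [h2]
    rw [Finset.sum_ite]
    simp only [Finset.sum_const_zero, zero_add, Finset.sum_const, smul_eq_mul, mul_one]
    have h3 : (Finset.univ.filter fun x : Fin (n + 1) => x ∉ ({a, b, c} : Finset _)) =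
        Finset.univ \ {a, b, c} := by
      ext x; simp
    rw [h3, Finset.card_sdiff_of_subset (Finset.subset_univ _), Finset.card_univ,
      Fintype.card_fin, Finset.card_eq_three.mpr ⟨a, b, c, hab, hac, hbc, rfl⟩]
    omega
  · simp [hS]

theorem F_mono {n : ℕ} (hn : 3 ≤ n) : F 3 (n + 1) 6 ≤ F 3 n 6 := by
  apply F_le (by omega)
  intro pos hpos
  have h1 := sum_delete hn pos
  have h2 : ∀ x : Fin (n + 1), (num (fun i a => pos i (x.succAbove a)) : ℝ) ≤
      F 3 n 6 * ((n : ℝ) * (n - 1) * (n - 2)) := by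
    intro x
    rw [← div_le_iff₀ (pos3 n hn)]
    exact le_F hn fun i => (hpos i).comp (Fin.succAbove_right_injective)
  have h3 : ((∑ x : Fin (n + 1), num (fun i a => pos i (x.succAbove a)) : ℕ) : ℝ) ≤
      (n + 1) * (F 3 n 6 * ((n : ℝ) * (n - 1) * (n - 2))) := by
    push_cast
    calc _ ≤ ∑ x : Fin (n + 1), F 3 n 6 * ((n : ℝ) * (n - 1) * (n - 2)) :=
          Finset.sum_le_sum fun x _ => h2 x
      _ = _ := by simp
  rw [h1] at h3
  push_cast [Nat.cast_sub (by omega : 2 ≤ n)] at h3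
  have h4 : (3 : ℝ) ≤ n := by exact_mod_cast hn
  have h5 : 0 < (n : ℝ) - 2 := by linarith
  push_cast
  rw [div_le_iff₀ (by have := pos3 (n + 1) (by omega); push_cast at this; exact this)]
  have h6 : ((n : ℝ) - 2) * num pos ≤ ((n : ℝ) - 2) * (F 3 n 6 *
      ((n + 1 : ℝ) * (n + 1 - 1) * (n + 1 - 2))) := by
    calc _ ≤ _ := h3
      _ = _ := by ring
  exact le_of_mul_le_mul_left h6 h5

/-- the limit exists -/
theorem exists_limit : ∃ L : ℝ, Tendsto (fun n => F 3 n 6) atTop (𝓝 L) := by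
  have hanti : Antitone (fun n => F 3 (n + 3) 6) :=
    antitone_nat_of_succ_le fun n => F_mono (by omega)
  have hbdd : BddBelow (Set.range fun n => F 3 (n + 3) 6) :=
    ⟨0, by rintro x ⟨n, rfl⟩; exact F_nonneg (by omega)⟩
  have h := tendsto_atTop_ciInf hanti hbdd
  exact ⟨_, (tendsto_add_atTop_iff_nat 3).mp h⟩

theorem limit_le {L : ℝ} (hL : Tendsto (fun n => F 3 n 6) atTop (𝓝 L)) : L ≤ 1 / 2 := by
  have h2 : Tendsto (fun n : ℕ => ((n : ℝ) + 1) / (2 * (n - 2))) atTop (𝓝 (1 / 2)) := by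
    have h3 : Tendsto (fun n : ℕ => (1 + 1 / (n : ℝ)) / (2 * (1 - 2 * (1 / (n : ℝ))))) atTop
        (𝓝 ((1 + 0) / (2 * (1 - 2 * 0)))) := by
      have h4 := tendsto_one_div_atTop_nhds_zero_nat (𝕜 := ℝ)
      refine Tendsto.div (tendsto_const_nhds.add h4) ?_ (by norm_num)
      exact tendsto_const_nhds.mul (tendsto_const_nhds.sub (tendsto_const_nhds.mul h4))
    norm_num at h3
    refine Tendsto.congr' ?_ (by simpa using h3)
    filter_upwards [eventually_gt_atTop 2] with n hn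
    have h5 : (2 : ℝ) < n := by exact_mod_cast hn
    have h6 : (n : ℝ) - 2 ≠ 0 := by linarith
    have h7 : (n : ℝ) ≠ 0 := by linarith
    have h8 : (1 : ℝ) - 2 * (n : ℝ)⁻¹ ≠ 0 := by
      have : (1 : ℝ) - 2 * (n : ℝ)⁻¹ = (n - 2) / n := by field_simp
      rw [this]; exact div_ne_zero h6 h7
    field_simp
  exact le_of_tendsto_of_tendsto hL h2 (by
    filter_upwards [eventually_ge_atTop 3] with n hn
    exact F_upper hn)

/-- the iterated blow-up of a pattern -/
theorem iterate {m : ℕ} (g : Fin 6 → Fin m → ℕ) (hg : ∀ i, Function.Injective (g i)) (k : ℕ) :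
    ∃ (α : Type) (_ : Fintype α) (_ : DecidableEq α) (f : Fin 6 → α → ℕ),
      Fintype.card α = m ^ k ∧ (∀ i, Function.Injective (f i)) ∧
      (num g : ℤ) * ((m : ℤ) ^ (3 * k) - (m : ℤ) ^ k) ≤ ((m : ℤ) ^ 3 - m) * num f := by
  classical
  induction k with
  | zero =>
    refine ⟨Fin 1, inferInstance, inferInstance, fun _ _ => 0, by simp, ?_, ?_⟩
    · intro i x y _
      exact Subsingleton.elim x y
    · have : (0 : ℤ) ≤ ((m : ℤ) ^ 3 - m) := by
        rcases Nat.eq_zero_or_pos m with rfl | h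
        · simp
        · have : (1 : ℤ) ≤ m := by exact_mod_cast h
          nlinarith [sq_nonneg ((m : ℤ) - 1), mul_nonneg (mul_nonneg (by linarith : (0 : ℤ) ≤ m)
            (by linarith : (0 : ℤ) ≤ (m : ℤ) - 1)) (by linarith : (0 : ℤ) ≤ (m : ℤ) + 1)]
      rw [mul_zero, pow_zero, sub_self, mul_zero]
      exact mul_nonneg this (Int.natCast_nonneg _)
  | succ k ih =>
    obtain ⟨α, hα, hα', f, hcard, hf, hnum⟩ := ih
    obtain ⟨M, hM⟩ : ∃ M, ∀ i a, f i a < M := by
      refine ⟨∑ i, ∑ a, (f i a + 1), fun i a => ?_⟩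
      have h1 : f i a + 1 ≤ ∑ a, (f i a + 1) :=
        Finset.single_le_sum (f := fun a => f i a + 1) (fun _ _ => Nat.zero_le _) (Finset.mem_univ a)
      have h2 : ∑ a, (f i a + 1) ≤ ∑ i, ∑ a, (f i a + 1) :=
        Finset.single_le_sum (f := fun i => ∑ a, (f i a + 1)) (fun _ _ => Nat.zero_le _)
          (Finset.mem_univ i)
      omega
    refine ⟨Fin m × α, inferInstance, inferInstance, blow g f M, ?_, ?_, ?_⟩
    · rw [Fintype.card_prod, Fintype.card_fin, hcard, pow_succ']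
    · exact blow_inj hM hg hf
    · have h1 := num_blow (g := g) hM
      rw [hcard, Fintype.card_fin] at h1
      have h2 : (num g : ℤ) * ((m : ℤ) ^ k) ^ 3 + m * num f ≤ num (blow g f M) := by
        exact_mod_cast h1
      have h3 : (0 : ℤ) ≤ ((m : ℤ) ^ 3 - m) := by
        rcases Nat.eq_zero_or_pos m with rfl | h
        · simp
        · have : (1 : ℤ) ≤ m := by exact_mod_cast h
          nlinarith [sq_nonneg ((m : ℤ) - 1), mul_nonneg (mul_nonneg (by linarith : (0 : ℤ) ≤ m)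
            (by linarith : (0 : ℤ) ≤ (m : ℤ) - 1)) (by linarith : (0 : ℤ) ≤ (m : ℤ) + 1)]
      have hm : (0 : ℤ) ≤ m := Int.natCast_nonneg m
      calc (num g : ℤ) * ((m : ℤ) ^ (3 * (k + 1)) - (m : ℤ) ^ (k + 1))
          = ((m : ℤ) ^ 3 - m) * (num g * ((m : ℤ) ^ k) ^ 3) +
            m * (num g * ((m : ℤ) ^ (3 * k) - (m : ℤ) ^ k)) := by
            have e1 : (m : ℤ) ^ (3 * (k + 1)) = (m : ℤ) ^ 3 * ((m : ℤ) ^ k) ^ 3 := by
              rw [← pow_mul, mul_comm k 3, ← pow_add]; ring_nf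
            have e2 : (m : ℤ) ^ (3 * k) = ((m : ℤ) ^ k) ^ 3 := by
              rw [← pow_mul, mul_comm k 3]
            rw [e1, e2, pow_succ]
            ring
        _ ≤ ((m : ℤ) ^ 3 - m) * (num g * ((m : ℤ) ^ k) ^ 3) +
            m * (((m : ℤ) ^ 3 - m) * num f) := by
            have := mul_le_mul_of_nonneg_left hnum hm
            linarith
        _ = ((m : ℤ) ^ 3 - m) * (num g * ((m : ℤ) ^ k) ^ 3 + m * num f) := by ring
        _ ≤ ((m : ℤ) ^ 3 - m) * num (blow g f M) := mul_le_mul_of_nonneg_left h2 h3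

/-- the lower bound given by a pattern -/
theorem le_limit {L : ℝ} (hL : Tendsto (fun n => F 3 n 6) atTop (𝓝 L)) {m : ℕ} (hm : 2 ≤ m)
    (g : Fin 6 → Fin m → ℕ) (hg : ∀ i, Function.Injective (g i)) :
    (num g : ℝ) / ((m : ℝ) ^ 3 - m) ≤ L := by
  have hm' : (2 : ℝ) ≤ m := by exact_mod_cast hm
  have hD : 0 < (m : ℝ) ^ 3 - m := by
    have : (m : ℝ) ^ 3 - m = m * (m - 1) * (m + 1) := by ring
    rw [this]
    have h1 : 0 < (m : ℝ) - 1 := by linarith
    positivity
  have hkey : ∀ k : ℕ, 2 ≤ k →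
      (num g : ℝ) / ((m : ℝ) ^ 3 - m) * (1 - 1 / ((m : ℝ) ^ k) ^ 2) ≤ F 3 (m ^ k) 6 := by
    intro k hk
    obtain ⟨α, hα, hα', f, hcard, hf, hnum⟩ := iterate g hg k
    have hN : 3 ≤ m ^ k := by
      calc 3 ≤ 2 ^ 2 := by norm_num
        _ ≤ m ^ 2 := Nat.pow_le_pow_left hm 2
        _ ≤ m ^ k := Nat.pow_le_pow_right (by omega) hk
    have h1 := le_F' hN hcard hf
    refine le_trans ?_ h1
    have hnum' : (num g : ℝ) * ((m : ℝ) ^ (3 * k) - (m : ℝ) ^ k) ≤
        ((m : ℝ) ^ 3 - m) * num f := by exact_mod_cast hnum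
    push_cast
    set N : ℝ := (m : ℝ) ^ k with hNdef
    have e2 : (m : ℝ) ^ (3 * k) = N ^ 3 := by rw [hNdef, ← pow_mul, mul_comm k 3]
    rw [e2] at hnum'
    have hN' : (3 : ℝ) ≤ N := by rw [hNdef]; exact_mod_cast hN
    have hp : 0 < N * (N - 1) * (N - 2) := by
      have h3 : 0 < N - 1 := by linarith
      have h4 : 0 < N - 2 := by linarith
      positivity
    rw [le_div_iff₀ hp]
    have hNpos : 0 < N := by linarith
    have e3 : (1 - 1 / N ^ 2) * (N * (N - 1) * (N - 2)) ≤ N ^ 3 - N := by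
      have : (1 - 1 / N ^ 2) ≤ 1 := by
        have : 0 ≤ 1 / N ^ 2 := by positivity
        linarith
      calc (1 - 1 / N ^ 2) * (N * (N - 1) * (N - 2)) ≤ 1 * (N * (N - 1) * (N - 2)) :=
            mul_le_mul_of_nonneg_right this hp.le
        _ = N ^ 3 - 3 * N ^ 2 + 2 * N := by ring
        _ ≤ N ^ 3 - N := by nlinarith
    have h5 : (num g : ℝ) / ((m : ℝ) ^ 3 - m) * (N ^ 3 - N) ≤ num f := by
      rw [div_mul_eq_mul_div, div_le_iff₀ hD]
      linarith
    have h6 : 0 ≤ (num g : ℝ) / ((m : ℝ) ^ 3 - m) := by positivity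
    calc (num g : ℝ) / ((m : ℝ) ^ 3 - m) * (1 - 1 / N ^ 2) * (N * (N - 1) * (N - 2))
        = (num g : ℝ) / ((m : ℝ) ^ 3 - m) * ((1 - 1 / N ^ 2) * (N * (N - 1) * (N - 2))) := by ring
      _ ≤ (num g : ℝ) / ((m : ℝ) ^ 3 - m) * (N ^ 3 - N) := mul_le_mul_of_nonneg_left e3 h6
      _ ≤ num f := h5
  have htop : Tendsto (fun k : ℕ => m ^ k) atTop atTop :=
    tendsto_pow_atTop_atTop_of_one_lt (by omega)
  have hL' : Tendsto (fun k : ℕ => F 3 (m ^ k) 6) atTop (𝓝 L) := hL.comp htop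
  have hlim : Tendsto (fun k : ℕ => (num g : ℝ) / ((m : ℝ) ^ 3 - m) *
      (1 - 1 / ((m : ℝ) ^ k) ^ 2)) atTop (𝓝 ((num g : ℝ) / ((m : ℝ) ^ 3 - m) * (1 - 0))) := by
    refine tendsto_const_nhds.mul (tendsto_const_nhds.sub ?_)
    have h1 : Tendsto (fun k : ℕ => ((m : ℝ) ^ k) ^ 2) atTop atTop :=
      (tendsto_pow_atTop (by norm_num)).comp
        (tendsto_pow_atTop_atTop_of_one_lt (by linarith : (1 : ℝ) < m))
    have h2 := tendsto_inv_atTop_zero.comp h1
    simpa [Function.comp_def, one_div] using h2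
  rw [sub_zero, mul_one] at hlim
  refine le_of_tendsto_of_tendsto hlim hL' ?_
  filter_upwards [eventually_ge_atTop 2] with k hk
  exact hkey k hk

end Pool.Agent.H61.Shatter
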