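import Pool.Agent.H61.Shatter.Pattern

set_option autoImplicit false

open Finset Filter Topology

namespace Pool.Agent.H61.Shatter

theorem num_pat96 : 440232 ≤ num pat96 := by
  have h := num_ge pat96_inj pat96_bal
  rw [pat96_energy, Fintype.card_fin] at h
  generalize num pat96 = N at h ⊢
  norm_num at h
  omega

theorem lower {L : ℝ} (hL : Tendsto (fun n => F 3 n 6) atTop (𝓝 L)) : (0.4976 : ℝ) ≤ L := by
  have h1 := le_limit hL (m := 96) (by norm_num) pat96 pat96_inj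
  have h2 : (440232 : ℝ) ≤ num pat96 := by exact_mod_cast num_pat96
  have h3 : (0.4976 : ℝ) ≤ (num pat96 : ℝ) / (((96 : ℕ) : ℝ) ^ 3 - ((96 : ℕ) : ℝ)) := by
    rw [le_div_iff₀ (by norm_num)]
    refine le_trans ?_ h2
    norm_num
  linarith

theorem antitone_shift : Antitone (fun n => F 3 (n + 3) 6) :=
  antitone_nat_of_succ_le fun n => F_mono (by omega)

theorem limit_le_F {L : ℝ} (hL : Tendsto (fun n => F 3 n 6) atTop (𝓝 L)) {n : ℕ} (hn : 3 ≤ n) :
    L ≤ F 3 n 6 := by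
  have h1 : Tendsto (fun n => F 3 (n + 3) 6) atTop (𝓝 L) :=
    (tendsto_add_atTop_iff_nat (f := fun n => F 3 n 6) 3).mpr hL
  have h2 := antitone_shift.le_of_tendsto h1 (n - 3)
  have h3 : n - 3 + 3 = n := by omega
  simp only [h3] at h2
  exact h2

theorem main :
    (∀ n : ℕ, 3 ≤ n → (0.4976 : ℝ) ≤ F 3 n 6 ∧ F 3 n 6 ≤ (n + 1) / (2 * (n - 2))) ∧
    ∃ L : ℝ, Tendsto (fun n => F 3 n 6) atTop (𝓝 L) ∧ 0.4976 ≤ L ∧ L ≤ 1 / 2 := by
  obtain ⟨L, hL⟩ := exists_limit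
  exact ⟨fun n hn => ⟨(lower hL).trans (limit_le_F hL hn), F_upper hn⟩,
    L, hL, lower hL, limit_le hL⟩

end Pool.Agent.H61.Shatter
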