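import Pool.Agent.H61.Shatter.Limit

set_option autoImplicit false

open Finset

namespace Pool.Agent.H61.Shatter

/-- position tables of six linear orders of `96` points: the position of `a` in the `i`-th order is
the `a`-th base-128 digit of `posNum i` -/
def posNum : Fin 6 → ℕ := ![
  166884691303657837600561087367632861627245724473382441871262189841477130876153308241861785254819854893340345538640484317614796091671812962857347144249980338187041794211649411513533091598128874183993272,
  9974865404727674699323252561886772373265500633183700344194973531286739506910881500649120393900357852994798345461648734512887531260309187903823614304133485051138550150433954243845898063187816810041976618,
  11087789307409153644129669588623238407474073337736581268161416632625750402945742045364606719103341508547149977295303685457419485118314550415401782127589611992896170219740643331747452504770092061432993292,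
  1322227152498857160433490780068723747737888365269052860494551808911821228742343910294918332027728361587309748052038045650816017873247841950706249815655655922906326326687024373815916408655770186530572844,
  10965090880316035895956050718176405715037288822891900601942569905872273969585943112457347172140611420433054963132842948604418019643913226733343633306557253529341267593877763789058532257936796145210721828,
  10457370706653048936734530048112417045687485259665281662910767094474577269607182422208125613652871072721338370808040039266723834534187986545274478587276739754712602906748962405237485677266752581829515871]

/-- the pattern -/
def pat96 (i : Fin 6) (a : Fin 96) : ℕ := posNum i / 128 ^ (a : ℕ) % 128

theorem pat96_inj : ∀ i, Function.Injective (pat96 i) := by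
  decide +kernel

theorem pat96_bal : ∀ a b : Fin 96, a ≠ b → bal (lab pat96 a b) = true := by
  decide +kernel

theorem pat96_energy : energy pat96 = 8352 := by
  decide +kernel

end Pool.Agent.H61.Shatter
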